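import Pool.Agent.K4H59.QP.Dir

/-!
# MP_07c750_an: mixtures of eigenvectors at almost critical points (helper59)
-/

set_option autoImplicit false

open Set Filter Topology MeasureTheory
open scoped Real ContDiff
open Pool.Agent.Y262.QE Pool.Agent.Y264.QR

noncomputable section

namespace Pool.Agent.K4H59.QP

section

variable {M : Type} [MetricSpace M] [CompactSpace M] [MeasurableSpace M] [BorelSpace M]
    {μ : Measure M} [IsFiniteMeasure μ] {H : Type} [NormedAddCommGroup H] [InnerProductSpace ℝ H]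
    {i : H →L[ℝ] Lp ℝ 2 μ} {a : H →L[ℝ] H →L[ℝ] ℝ} {b : C(M, ℝ) → H →L[ℝ] H →L[ℝ] ℝ}

theorem norm_sq_le {n : ℕ} (c : Fin n → ℝ) : ‖c‖ ^ 2 ≤ ∑ l, (c l) ^ 2 := by
  have h0 : 0 ≤ ∑ l, (c l) ^ 2 := Finset.sum_nonneg fun _ _ => sq_nonneg _
  have h1 : ‖c‖ ≤ Real.sqrt (∑ l, (c l) ^ 2) := by
    rw [pi_norm_le_iff_of_nonneg (Real.sqrt_nonneg _)]
    intro l
    refine Real.le_sqrt_of_sq_le ?_
    rw [Real.norm_eq_abs, sq_abs]
    exact Finset.single_le_sum (f := fun l => (c l) ^ 2) (fun _ _ => sq_nonneg _)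
      (Finset.mem_univ l)
  calc ‖c‖ ^ 2 ≤ (Real.sqrt (∑ l, (c l) ^ 2)) ^ 2 := pow_le_pow_left₀ (norm_nonneg _) h1 2
    _ = _ := Real.sq_sqrt h0

theorem G_cont (hA : Ab μ i a b) {j : ℕ} (hj : ∀ φ, 0 < Ev a (b φ) j) :
    Continuous (GG μ a b j) := by
  have h1 : LipschitzWith 2 (GG μ a b j) := by
    refine LipschitzWith.of_dist_le_mul fun φ ψ => ?_
    rw [Real.dist_eq, dist_eq_norm, abs_le]
    have h1 := G_sub hA hj φ ψ
    have h2 := G_sub hA hj ψ φ
    rw [norm_sub_rev] at h2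
    push_cast
    constructor <;> linarith
  exact h1.continuous

omit [MeasurableSpace M] [BorelSpace M] in
theorem Ph_add {n : ℕ} (φ₀ : C(M, ℝ)) (h : Fin n → C(M, ℝ)) (c d : Fin n → ℝ) (τ : ℝ) :
    Ph φ₀ h (c + τ • d) = Ph φ₀ h c + τ • ∑ l, d l • h l := by
  unfold Ph
  rw [add_assoc, Finset.smul_sum, ← Finset.sum_add_distrib]
  congr 1
  refine Finset.sum_congr rfl fun l _ => ?_
  rw [Pi.add_apply, Pi.smul_apply, add_smul, smul_smul, smul_eq_mul]

/-- almost critical points -/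
theorem crit (hA : Ab μ i a b) (hB : IsB μ i b) (heg : ∀ φ, ∃ (e : ℕ → H) (E : ℕ → ℝ),
      Eg a (b φ) e E) {n : ℕ} (φ₀ : C(M, ℝ)) (h : Fin n → C(M, ℝ)) (ρ ε : ℝ) (hρ : 0 < ρ)
    (hε : 0 < ε) :
    ∀ᶠ j : ℕ in atTop, ∃ c : Fin n → ℝ, ‖c‖ ≤ ρ ∧ ∀ (d : Fin n → ℝ) (ζ : ℝ), 0 < ζ →
      ∃ v, Un a b j (Ph φ₀ h c) v ∧ kap μ i (∑ l, d l • h l) (Ph φ₀ h c) v ≤
        avg μ (∑ l, d l • h l) (Ph φ₀ h c) + ε * ∑ l, |d l| + ζ := by
  set η : ℝ := ε * ρ / 6 with hη
  have hη0 : 0 < η := by positivity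
  set θ : ℝ := 3 * η / ρ ^ 2 with hθ
  have hθ0 : 0 < θ := by positivity
  filter_upwards [G_unif hA φ₀ h ρ η hη0, ev_pos hA] with j hG hj
  set F : (Fin n → ℝ) → ℝ := fun c => GG μ a b j (Ph φ₀ h c) + θ * ∑ l, (c l) ^ 2 with hF
  have hFc : Continuous F := by
    rw [hF]
    refine ((G_cont hA hj).comp (Ph_cont φ₀ h)).add ?_
    fun_prop
  have hK : IsCompact (Metric.closedBall (0 : Fin n → ℝ) ρ) := isCompact_closedBall _ _
  obtain ⟨c, hcK, hmin⟩ := hK.exists_isMinOn ⟨0, Metric.mem_closedBall_self hρ.le⟩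
    hFc.continuousOn
  have hcK' : ‖c‖ ≤ ρ := by rwa [mem_closedBall_zero_iff] at hcK
  have hmin' : ∀ d : Fin n → ℝ, ‖d‖ ≤ ρ → F c ≤ F d := by
    intro d hd
    exact hmin (by rwa [mem_closedBall_zero_iff])
  -- the minimum is in the interior
  have hint : ‖c‖ < ρ := by
    by_contra hcon
    push Not at hcon
    have h1 := hmin' 0 (by rw [norm_zero]; exact hρ.le)
    have h2 : F 0 ≤ η := by
      have h3 := (abs_le.1 (hG 0 (by rw [norm_zero]; exact hρ.le))).2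
      have h4 : F 0 = GG μ a b j (Ph φ₀ h 0) := by
        rw [hF]
        simp
      rw [h4]
      exact h3
    have h3 := (abs_le.1 (hG c hcK')).1
    have h4 := norm_sq_le c
    have h5 : ρ ^ 2 ≤ ∑ l, (c l) ^ 2 := (pow_le_pow_left₀ hρ.le hcon 2).trans h4
    have h6 : θ * ρ ^ 2 = 3 * η := by
      rw [hθ]
      field_simp
    have h7 := mul_le_mul_of_nonneg_left h5 hθ0.le
    have h8 : F c = GG μ a b j (Ph φ₀ h c) + θ * ∑ l, (c l) ^ 2 := rfl
    linarith
  refine ⟨c, hcK', fun d ζ hζ => ?_⟩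
  by_contra hcon
  push Not at hcon
  obtain ⟨e, E, he⟩ := heg (Ph φ₀ h c)
  have hS0 : 0 ≤ ∑ l, |d l| := Finset.sum_nonneg fun _ _ => abs_nonneg _
  obtain ⟨δ, hδ, hdec⟩ := dec hA hB (Ph φ₀ h c) (∑ l, d l • h l) j hj e E he (ε * ∑ l, |d l|) ζ
    (by positivity) hζ fun v hv => (hcon v hv).le
  set K : ℝ := ‖∑ l, d l • h l‖ ^ 2 + θ * ∑ l, (d l) ^ 2 with hKdef
  have hK0 : 0 ≤ K := by
    have : 0 ≤ ∑ l, (d l) ^ 2 := Finset.sum_nonneg fun _ _ => sq_nonneg _
    positivity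
  set τ : ℝ := min (δ / 2) (min (ζ / (4 * (K + 1))) ((ρ - ‖c‖) / (‖d‖ + 1))) with hτ
  have hτ0 : 0 < τ := by
    refine lt_min (by positivity) (lt_min (by positivity) ?_)
    exact div_pos (by linarith) (by positivity)
  have hτ1 : τ < δ := lt_of_le_of_lt (min_le_left _ _) (by linarith)
  have hτ2 : τ ≤ ζ / (4 * (K + 1)) := (min_le_right _ _).trans (min_le_left _ _)
  have hτ3 : τ ≤ (ρ - ‖c‖) / (‖d‖ + 1) := (min_le_right _ _).trans (min_le_right _ _)
  have hball : ‖c + τ • d‖ ≤ ρ := by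
    refine (norm_add_le _ _).trans ?_
    rw [norm_smul, Real.norm_of_nonneg hτ0.le]
    rw [le_div_iff₀ (by positivity)] at hτ3
    nlinarith [norm_nonneg d]
  have h1 := hmin' _ hball
  have h2 := hdec τ hτ0 hτ1
  rw [← Ph_add] at h2
  have h3 : ∑ l, ((c + τ • d) l) ^ 2 = ∑ l, (c l) ^ 2 + 2 * τ * ∑ l, c l * d l +
      τ ^ 2 * ∑ l, (d l) ^ 2 := by
    rw [Finset.mul_sum, Finset.mul_sum, ← Finset.sum_add_distrib, ← Finset.sum_add_distrib]
    refine Finset.sum_congr rfl fun l _ => ?_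
    simp only [Pi.add_apply, Pi.smul_apply, smul_eq_mul]
    ring
  have h4 : ∑ l, c l * d l ≤ ρ * ∑ l, |d l| := by
    rw [Finset.mul_sum]
    refine Finset.sum_le_sum fun l _ => ?_
    have h5 : |c l| ≤ ρ := (norm_le_pi_norm c l).trans hcK'
    calc c l * d l ≤ |c l * d l| := le_abs_self _
      _ = |c l| * |d l| := abs_mul _ _
      _ ≤ ρ * |d l| := mul_le_mul_of_nonneg_right h5 (abs_nonneg _)
  have h5 : 2 * θ * ρ = ε := by
    rw [hθ, hη]
    field_simp
    ring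
  have h6 : θ * (2 * τ * ∑ l, c l * d l) ≤ τ * (ε * ∑ l, |d l|) := by
    have h7 := mul_le_mul_of_nonneg_left h4 (by positivity : (0 : ℝ) ≤ θ * (2 * τ))
    calc θ * (2 * τ * ∑ l, c l * d l) = θ * (2 * τ) * ∑ l, c l * d l := by ring
      _ ≤ θ * (2 * τ) * (ρ * ∑ l, |d l|) := h7
      _ = τ * ((2 * θ * ρ) * ∑ l, |d l|) := by ring
      _ = _ := by rw [h5]
  have h7 : F (c + τ • d) = GG μ a b j (Ph φ₀ h (c + τ • d)) +
      θ * (∑ l, (c l) ^ 2 + 2 * τ * ∑ l, c l * d l + τ ^ 2 * ∑ l, (d l) ^ 2) := by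
    rw [← h3]
  have h8 : F c = GG μ a b j (Ph φ₀ h c) + θ * ∑ l, (c l) ^ 2 := rfl
  rw [h7, h8] at h1
  have h9 : τ * K ≤ ζ / 4 := by
    rw [le_div_iff₀ (by positivity)] at hτ2
    nlinarith
  have h10 : τ ^ 2 * ‖∑ l, d l • h l‖ ^ 2 + θ * (τ ^ 2 * ∑ l, (d l) ^ 2) = τ * (τ * K) := by
    rw [hKdef]
    ring
  have h11 := mul_le_mul_of_nonneg_left h9 hτ0.le
  nlinarith [mul_pos hτ0 hζ]

/-- mixtures -/
theorem mix {n : ℕ} (S : Set (Fin n → ℝ)) (hS : S.Nonempty) (ε : ℝ) (hε : 0 < ε)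
    (h : ∀ (d : Fin n → ℝ) (ζ : ℝ), 0 < ζ → ∃ x ∈ S, ∑ l, d l * x l ≤ ε * ∑ l, |d l| + ζ) :
    ∃ x ∈ convexHull ℝ S, ∀ l, |x l| < 2 * ε := by
  by_contra hcon
  push Not at hcon
  set K : Set (Fin n → ℝ) := Metric.ball 0 (2 * ε) with hK
  have hKc : Convex ℝ K := convex_ball _ _
  have hKo : IsOpen K := Metric.isOpen_ball
  have hdis : Disjoint K (convexHull ℝ S) := by
    rw [Set.disjoint_left]
    intro x hx hxS
    obtain ⟨l, hl⟩ := hcon x hxS
    rw [hK, mem_ball_zero_iff] at hx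
    have := norm_le_pi_norm x l
    rw [Real.norm_eq_abs] at this
    linarith
  obtain ⟨f, u, hf1, hf2⟩ := geometric_hahn_banach_open hKc hKo (convex_convexHull ℝ S) hdis
  set d : Fin n → ℝ := fun l => f (Pi.single l 1) with hd
  have hfd : ∀ x : Fin n → ℝ, f x = ∑ l, d l * x l := by
    intro x
    have h1 : x = ∑ l, x l • (Pi.single l (1 : ℝ) : Fin n → ℝ) := by
      funext k
      simp [Finset.sum_apply, Pi.single_apply]
    conv_lhs => rw [h1]
    rw [map_sum]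
    refine Finset.sum_congr rfl fun l _ => ?_
    rw [map_smul, smul_eq_mul, mul_comm]
  have hu0 : 0 < u := by
    have := hf1 0 (by rw [hK, mem_ball_zero_iff, norm_zero]; positivity)
    rwa [map_zero] at this
  -- the supremum of `f` on the ball
  have hsup : 3 / 2 * ε * ∑ l, |d l| ≤ u := by
    refine le_of_lt ?_
    have h1 := hf1 (fun l => 3 / 2 * ε * SignType.sign (d l)) (by
      rw [hK, mem_ball_zero_iff]
      refine lt_of_le_of_lt (b := 3 / 2 * ε) ?_ (by linarith)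
      rw [pi_norm_le_iff_of_nonneg (by positivity)]
      intro l
      rw [Real.norm_eq_abs, abs_mul, abs_of_pos (by positivity : (0 : ℝ) < 3 / 2 * ε)]
      refine mul_le_of_le_one_right (by positivity) ?_
      rcases lt_trichotomy (d l) 0 with h0 | h0 | h0
      · rw [sign_neg h0]; norm_num
      · rw [h0, sign_zero]; norm_num
      · rw [sign_pos h0]; norm_num)
    rw [hfd] at h1
    refine lt_of_le_of_lt (le_of_eq ?_) h1
    rw [Finset.mul_sum]
    refine Finset.sum_congr rfl fun l _ => ?_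
    have h2 : (SignType.sign (d l) : ℝ) * d l = |d l| := sign_mul_self _
    rw [← h2]
    ring
  have hS0 : 0 ≤ ∑ l, |d l| := Finset.sum_nonneg fun _ _ => abs_nonneg _
  obtain ⟨x, hx, hx2⟩ := h d (min (u / 4) (u / 4)) (by rw [min_self]; positivity)
  rw [min_self] at hx2
  have h3 := hf2 x (subset_convexHull ℝ S hx)
  rw [hfd] at h3
  nlinarith

/-- a point of the convex hull is a combination of few points -/
theorem cara {n : ℕ} (S : Set (Fin n → ℝ)) (x : Fin n → ℝ) (hx : x ∈ convexHull ℝ S) :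
    ∃ (p : ℕ → ℝ) (z : ℕ → Fin n → ℝ), (∀ r, 0 ≤ p r) ∧ ∑ r ∈ Finset.range (n + 1), p r = 1 ∧
      (∀ r, n < r → p r = 0) ∧ (∀ r, z r ∈ S) ∧
      ∀ l, ∑ r ∈ Finset.range (n + 1), p r * z r l = x l := by
  obtain ⟨ι, hι, z, w, hz, hai, hw0, hw1, hwz⟩ := eq_pos_convex_span_of_mem_convexHull hx
  have hcard : Fintype.card ι ≤ n + 1 := by
    have h1 := hai.card_le_finrank_succ
    refine h1.trans ?_
    have h2 : Module.finrank ℝ (vectorSpan ℝ (Set.range z)) ≤ n := by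
      refine (Submodule.finrank_le _).trans ?_
      rw [Module.finrank_fin_fun]
    omega
  have hne : Nonempty ι := by
    by_contra hcon
    rw [not_nonempty_iff] at hcon
    rw [Finset.univ_eq_empty, Finset.sum_empty] at hw1
    exact zero_ne_one hw1
  obtain ⟨i0⟩ := hne
  set m := Fintype.card ι with hm
  let eq : ι ≃ Fin m := Fintype.equivFin ι
  refine ⟨fun r => if hr : r < m then w (eq.symm ⟨r, hr⟩) else 0,
    fun r => if hr : r < m then z (eq.symm ⟨r, hr⟩) else z i0, fun r => ?_, ?_, fun r hr => ?_,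
    fun r => ?_, fun l => ?_⟩
  · dsimp only
    split
    · exact (hw0 _).le
    · exact le_rfl
  · rw [← Finset.sum_subset (Finset.range_subset_range.2 hcard) (by
      intro r _ hr
      rw [Finset.mem_range] at hr
      simp [hr])]
    rw [← hw1, Finset.sum_range, ← Equiv.sum_comp eq.symm]
    refine Finset.sum_congr rfl fun r _ => ?_
    simp
  · have : ¬ r < m := by omega
    simp [this]
  · dsimp only
    split
    · exact hz ⟨_, rfl⟩
    · exact hz ⟨_, rfl⟩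
  · rw [← Finset.sum_subset (Finset.range_subset_range.2 hcard) (by
      intro r _ hr
      rw [Finset.mem_range] at hr
      simp [hr])]
    rw [← hwz, Finset.sum_range, Finset.sum_apply, ← Equiv.sum_comp eq.symm]
    refine Finset.sum_congr rfl fun r _ => ?_
    simp

end

end Pool.Agent.K4H59.QP
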