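import Pool.Agent.K4H59.QP.Lev

/-!
# MP_07c750_an: almost critical points and directions (helper59)
-/

set_option autoImplicit false

open Set Filter Topology MeasureTheory
open scoped Real ContDiff
open Pool.Agent.Y262.QE Pool.Agent.Y264.QR

noncomputable section

namespace Pool.Agent.K4H59.QP

section

variable {M : Type} [MetricSpace M] [CompactSpace M] [MeasurableSpace M] [BorelSpace M]
    {μ : Measure M} [IsFiniteMeasure μ] {H : Type} [NormedAddCommGroup H] [InnerProductSpace ℝ H]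
    {i : H →L[ℝ] Lp ℝ 2 μ} {a : H →L[ℝ] H →L[ℝ] ℝ} {b : C(M, ℝ) → H →L[ℝ] H →L[ℝ] ℝ}

theorem avg_bd (f φ : C(M, ℝ)) : |avg μ f φ| ≤ ‖f‖ := by
  let _ : MeasurableSpace C(M, ℝ) := borel _
  have _ : BorelSpace C(M, ℝ) := ⟨rfl⟩
  exact (Pool.Agent.Y689.QR.cm M μ).2.2.1 f φ

theorem avg_cont (f : C(M, ℝ)) : Continuous fun φ => avg μ f φ := by
  let _ : MeasurableSpace C(M, ℝ) := borel _
  have _ : BorelSpace C(M, ℝ) := ⟨rfl⟩
  exact (Pool.Agent.Y689.QR.cm M μ).2.1 f

/-- the growth of the area -/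
theorem Ar_grow (hA : Ab μ i a b) (φ h : C(M, ℝ)) (τ : ℝ) (hτ : 0 ≤ τ) (h1 : τ * ‖h‖ ≤ 1) :
    Real.log (Ar μ (φ + τ • h)) ≤ Real.log (Ar μ φ) + τ * avg μ h φ + τ ^ 2 * ‖h‖ ^ 2 := by
  have hp : 0 < Ar μ φ := hA.pos φ
  have hp' : 0 < Ar μ (φ + τ • h) := hA.pos _
  have h2 : Ar μ (φ + τ • h) ≤ Ar μ φ * (1 + (τ * avg μ h φ + τ ^ 2 * ‖h‖ ^ 2)) := by
    have e1 : Ar μ φ * (1 + (τ * avg μ h φ + τ ^ 2 * ‖h‖ ^ 2)) =
        ∫ x, (Real.exp (φ x) + (τ * (h x * Real.exp (φ x)) +
          τ ^ 2 * ‖h‖ ^ 2 * Real.exp (φ x))) ∂μ := by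
      have i1 : Integrable (fun x => Real.exp (φ x)) μ := int_exp μ φ
      have i2 : Integrable (fun x => h x * Real.exp (φ x)) μ :=
        int_c μ _ (h.continuous.mul (Real.continuous_exp.comp φ.continuous))
      have e3 : ∫ x, (Real.exp (φ x) + (τ * (h x * Real.exp (φ x)) +
          τ ^ 2 * ‖h‖ ^ 2 * Real.exp (φ x))) ∂μ = ∫ x, Real.exp (φ x) ∂μ +
          ∫ x, (τ * (h x * Real.exp (φ x)) + τ ^ 2 * ‖h‖ ^ 2 * Real.exp (φ x)) ∂μ :=
        integral_add i1 ((i2.const_mul _).add (i1.const_mul _))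
      have e4 : ∫ x, (τ * (h x * Real.exp (φ x)) + τ ^ 2 * ‖h‖ ^ 2 * Real.exp (φ x)) ∂μ =
          ∫ x, τ * (h x * Real.exp (φ x)) ∂μ + ∫ x, τ ^ 2 * ‖h‖ ^ 2 * Real.exp (φ x) ∂μ :=
        integral_add (i2.const_mul _) (i1.const_mul _)
      rw [e3, e4, integral_const_mul, integral_const_mul]
      have e2 : avg μ h φ * Ar μ φ = ∫ x, h x * Real.exp (φ x) ∂μ := by
        unfold avg
        exact div_mul_cancel₀ _ hp.ne'
      rw [← e2]
      unfold Ar
      ring
    rw [e1]
    unfold Ar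
    refine integral_mono (int_exp μ _) (int_c μ _ ?_) fun x => ?_
    · fun_prop
    · show Real.exp ((φ + τ • h) x) ≤ Real.exp (φ x) + (τ * (h x * Real.exp (φ x)) +
          τ ^ 2 * ‖h‖ ^ 2 * Real.exp (φ x))
      have hx : |h x| ≤ ‖h‖ := h.norm_coe_le_norm x
      have h3 : |τ * h x| ≤ 1 := by
        rw [abs_mul, abs_of_nonneg hτ]
        exact (mul_le_mul_of_nonneg_left hx hτ).trans h1
      have h4 := Real.abs_exp_sub_one_sub_id_le h3
      have h5 := (abs_le.1 h4).2
      have h6 : (τ * h x) ^ 2 ≤ τ ^ 2 * ‖h‖ ^ 2 := by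
        rw [mul_pow]
        refine mul_le_mul_of_nonneg_left ?_ (sq_nonneg _)
        rw [← sq_abs (h x)]
        exact pow_le_pow_left₀ (abs_nonneg _) hx 2
      have h7 : (φ + τ • h) x = φ x + τ * h x := by simp
      rw [h7, Real.exp_add]
      have h8 : Real.exp (τ * h x) ≤ 1 + τ * h x + τ ^ 2 * ‖h‖ ^ 2 := by linarith
      have h9 := mul_le_mul_of_nonneg_left h8 (Real.exp_pos (φ x)).le
      linarith
  have h3 := Real.log_le_log hp' h2
  have h4 : 0 < 1 + (τ * avg μ h φ + τ ^ 2 * ‖h‖ ^ 2) := by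
    by_contra hcon
    push Not at hcon
    have := mul_nonpos_of_nonneg_of_nonpos hp.le hcon
    linarith
  rw [Real.log_mul hp.ne' h4.ne'] at h3
  have h5 := Real.log_le_sub_one_of_pos h4
  linarith

/-- the unit eigenvectors of the `j`-th eigenvalue -/
def Un (a : H →L[ℝ] H →L[ℝ] ℝ) (b : C(M, ℝ) → H →L[ℝ] H →L[ℝ] ℝ) (j : ℕ) (φ : C(M, ℝ)) (v : H) :
    Prop :=
  b φ v v = 1 ∧ ∀ w, a v w = Ev a (b φ) j * b φ v w

theorem kap_smul (f φ : C(M, ℝ)) (v : H) (t : ℝ) :
    kap μ i f φ (t • v) = t ^ 2 * kap μ i f φ v := by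
  unfold kap
  rw [← integral_const_mul]
  refine integral_congr_ae ?_
  have h1 : (i (t • v) : M → ℝ) =ᵐ[μ] t • (i v : M → ℝ) := by
    rw [map_smul]
    exact Lp.coeFn_smul t (i v)
  filter_upwards [h1] with x hx
  rw [hx, Pi.smul_apply, smul_eq_mul]
  ring

theorem kap_int (f φ : C(M, ℝ)) (v : H) :
    Integrable (fun x => f x * (Real.exp (φ x) * (i v x) ^ 2)) μ := by
  have h1 : Integrable (fun x => (i v x) ^ 2) μ := (Lp.memLp (i v)).integrable_sq
  have h2 : Continuous fun x => f x * Real.exp (φ x) := by fun_prop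
  have h3 : Integrable (fun x => (f x * Real.exp (φ x)) * (i v x) ^ 2) μ := by
    refine h1.bdd_mul (c := ‖f‖ * Real.exp ‖φ‖) h2.aestronglyMeasurable
      (Eventually.of_forall fun x => ?_)
    rw [norm_mul, Real.norm_of_nonneg (Real.exp_pos _).le]
    refine mul_le_mul (f.norm_coe_le_norm x) (Real.exp_le_exp.2 ?_) (Real.exp_pos _).le
      (norm_nonneg _)
    exact (le_abs_self _).trans (φ.norm_coe_le_norm x)
  simpa only [mul_assoc] using h3

theorem kap_add (f g φ : C(M, ℝ)) (v : H) :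
    kap μ i (f + g) φ v = kap μ i f φ v + kap μ i g φ v := by
  unfold kap
  rw [← integral_add (kap_int f φ v) (kap_int g φ v)]
  refine integral_congr_ae (Eventually.of_forall fun x => ?_)
  simp only [ContinuousMap.add_apply]
  ring

theorem kap_csmul (t : ℝ) (f φ : C(M, ℝ)) (v : H) :
    kap μ i (t • f) φ v = t * kap μ i f φ v := by
  unfold kap
  rw [← integral_const_mul]
  refine integral_congr_ae (Eventually.of_forall fun x => ?_)
  simp only [ContinuousMap.smul_apply, smul_eq_mul]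
  ring

theorem kap_sum {n : ℕ} (d : Fin n → ℝ) (h : Fin n → C(M, ℝ)) (φ : C(M, ℝ)) (v : H) :
    kap μ i (∑ l, d l • h l) φ v = ∑ l, d l * kap μ i (h l) φ v := by
  have key : ∀ s : Finset (Fin n), kap μ i (∑ l ∈ s, d l • h l) φ v =
      ∑ l ∈ s, d l * kap μ i (h l) φ v := by
    intro s
    induction s using Finset.induction_on with
    | empty =>
      simp only [Finset.sum_empty]
      unfold kap
      simp
    | insert c s hc ih => rw [Finset.sum_insert hc, Finset.sum_insert hc, kap_add, kap_csmul, ih]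
  exact key _

theorem avg_add (f g φ : C(M, ℝ)) : avg μ (f + g) φ = avg μ f φ + avg μ g φ := by
  unfold avg
  rw [← add_div, ← integral_add (int_c μ _ (by fun_prop)) (int_c μ _ (by fun_prop))]
  congr 1
  refine integral_congr_ae (Eventually.of_forall fun x => ?_)
  simp only [ContinuousMap.add_apply]
  ring

theorem avg_csmul (t : ℝ) (f φ : C(M, ℝ)) : avg μ (t • f) φ = t * avg μ f φ := by
  unfold avg
  rw [← mul_div_assoc, ← integral_const_mul]
  congr 1
  refine integral_congr_ae (Eventually.of_forall fun x => ?_)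
  simp only [ContinuousMap.smul_apply, smul_eq_mul]
  ring

theorem avg_sum {n : ℕ} (d : Fin n → ℝ) (h : Fin n → C(M, ℝ)) (φ : C(M, ℝ)) :
    avg μ (∑ l, d l • h l) φ = ∑ l, d l * avg μ (h l) φ := by
  have key : ∀ s : Finset (Fin n), avg μ (∑ l ∈ s, d l • h l) φ =
      ∑ l ∈ s, d l * avg μ (h l) φ := by
    intro s
    induction s using Finset.induction_on with
    | empty =>
      simp only [Finset.sum_empty]
      unfold avg
      simp
    | insert c s hc ih => rw [Finset.sum_insert hc, Finset.sum_insert hc, avg_add, avg_csmul, ih]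
  exact key _

/-- the quadratic forms of the constants -/
theorem kap_const (hB : IsB μ i b) (s : ℝ) (φ : C(M, ℝ)) (v : H) :
    kap μ i (ContinuousMap.const M s) φ v = s * b φ v v := by
  rw [hB φ v v]
  unfold kap
  rw [← integral_const_mul]
  refine integral_congr_ae (Eventually.of_forall fun x => ?_)
  simp only [ContinuousMap.const_apply]
  ring

theorem kap_bd (hA : Ab μ i a b) (f φ : C(M, ℝ)) (v : H) :
    |kap μ i f φ v| ≤ ‖f‖ * b φ v v := by
  obtain ⟨k, -, h2, -⟩ := hA.k f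
  obtain ⟨h3, h4⟩ := h2 φ v
  rwa [h3] at h4

/-- if the form of `h` is large on the eigenspace, then the normalized eigenvalue decreases -/
theorem dec (hA : Ab μ i a b) (hB : IsB μ i b) (φ h : C(M, ℝ)) (j : ℕ)
    (hj : ∀ φ, 0 < Ev a (b φ) j) (e : ℕ → H) (E : ℕ → ℝ) (he : Eg a (b φ) e E) (ξ ζ : ℝ)
    (hξ : 0 ≤ ξ) (hζ : 0 < ζ)
    (hv : ∀ v, Un a b j φ v → avg μ h φ + ξ + ζ ≤ kap μ i h φ v) :
    ∃ δ : ℝ, 0 < δ ∧ ∀ τ : ℝ, 0 < τ → τ < δ →
      GG μ a b j (φ + τ • h) ≤ GG μ a b j φ - τ * (ξ + ζ / 2) + τ ^ 2 * ‖h‖ ^ 2 := by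
  set s : ℝ := ‖h‖ with hs
  have hs0 : 0 ≤ s := norm_nonneg _
  have hmm : ∀ l, Ev a (b φ) l = E l := Pool.Agent.Y592.QE.mm H a (b φ) (hA.fm φ) e E he
  obtain ⟨k, hk1, hk2, hk3⟩ := hA.k (h + ContinuousMap.const M s)
  have hkv : ∀ v, k φ v v = kap μ i h φ v + s * b φ v v := by
    intro v
    rw [(hk2 φ v).1, kap_add, kap_const hB]
  have hb0 : ∀ v, 0 ≤ b φ v v := (hA.fm φ).nb
  have hkb : ∀ v, 0 ≤ k φ v v ∧ k φ v v ≤ (2 * s) * b φ v v := by
    intro v
    have h1 := abs_le.1 (kap_bd hA h φ v)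
    rw [hkv]
    constructor <;> nlinarith [h1.1, h1.2]
  set m : ℝ := avg μ h φ + ξ + ζ + s with hm
  have havg : |avg μ h φ| ≤ s := avg_bd h φ
  have havg' := (abs_le.1 havg).1
  have hm' : 0 ≤ m - ζ / 2 := by rw [hm]; linarith
  obtain ⟨δ, hδ, hder⟩ := Pool.Agent.Y726.QE.der H a (b φ) (hA.fm φ) e E he (k φ) (2 * s)
    (hk1 φ) hkb j m (m - ζ / 2) hm' (by linarith) (by
      intro v hvE
      rcases (hb0 v).eq_or_lt with h0 | h0
      · have h1 := (hkb v).2
        rw [← h0, mul_zero] at h1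
        rw [← h0, mul_zero]
        exact (hkb v).1
      · set t : ℝ := (Real.sqrt (b φ v v))⁻¹ with ht
        have ht2 : t ^ 2 * b φ v v = 1 := by
          rw [ht, inv_pow, Real.sq_sqrt h0.le, inv_mul_cancel₀ h0.ne']
        have hU : Un a b j φ (t • v) := by
          refine ⟨?_, fun w => ?_⟩
          · have e1 : b φ (t • v) (t • v) = t ^ 2 * b φ v v := by
              have e2 : b φ (t • v) (t • v) = t * b φ v (t • v) := by
                rw [(b φ).map_smul]
                rfl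
              rw [e2, (b φ v).map_smul, smul_eq_mul]
              ring
            rw [e1]
            exact ht2
          · have e1 : a (t • v) w = t * a v w := by
              rw [a.map_smul]
              rfl
            have e2 : b φ (t • v) w = t * b φ v w := by
              rw [(b φ).map_smul]
              rfl
            rw [e1, e2, hvE w, hmm]
            ring
        have h2 := hv _ hU
        rw [kap_smul] at h2
        have h3 : kap μ i h φ v = (t ^ 2 * kap μ i h φ v) * b φ v v := by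
          calc kap μ i h φ v = (t ^ 2 * b φ v v) * kap μ i h φ v := by rw [ht2, one_mul]
            _ = _ := by ring
        rw [hkv, h3, hm]
        have h4 := mul_le_mul_of_nonneg_right h2 h0.le
        nlinarith)
  refine ⟨min δ (1 / (s + 1)), lt_min hδ (by positivity), fun τ hτ0 hτ => ?_⟩
  have hτ1 : τ < δ := lt_of_lt_of_le hτ (min_le_left _ _)
  have hτ2 : τ < 1 / (s + 1) := lt_of_lt_of_le hτ (min_le_right _ _)
  have hτs : τ * s ≤ 1 := by
    rw [lt_div_iff₀ (by positivity)] at hτ2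
    nlinarith
  have h1 := hder τ hτ0 hτ1 (b (φ + τ • (h + ContinuousMap.const M s))) fun v => hk3 φ v τ
  rw [← hmm] at h1
  have h2 := ev_le hA (φ + τ • h) (φ + τ • (h + ContinuousMap.const M s)) j
  have h3 : ‖(φ + τ • h) - (φ + τ • (h + ContinuousMap.const M s))‖ ≤ τ * s := by
    have e1 : (φ + τ • h) - (φ + τ • (h + ContinuousMap.const M s)) =
        -(τ • ContinuousMap.const M s) := by
      rw [smul_add]
      abel
    rw [e1, norm_neg, norm_smul, Real.norm_of_nonneg hτ0.le]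
    refine mul_le_mul_of_nonneg_left ?_ hτ0.le
    rw [ContinuousMap.norm_le _ hs0]
    intro x
    rw [ContinuousMap.const_apply, Real.norm_of_nonneg hs0]
  have hE : 0 < Ev a (b φ) j := hj φ
  have h4 : Ev a (b (φ + τ • h)) j ≤
      Real.exp (τ * s) * (Ev a (b φ) j * (1 - (m - ζ / 2) * τ)) := by
    refine h2.trans (mul_le_mul (Real.exp_le_exp.2 h3) h1 (hj _).le (Real.exp_pos _).le)
  have h5 : 0 < 1 - (m - ζ / 2) * τ := by
    by_contra hcon
    push Not at hcon
    have h6 : Real.exp (τ * s) * (Ev a (b φ) j * (1 - (m - ζ / 2) * τ)) ≤ 0 :=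
      mul_nonpos_of_nonneg_of_nonpos (Real.exp_pos _).le
        (mul_nonpos_of_nonneg_of_nonpos hE.le hcon)
    have := hj (φ + τ • h)
    linarith
  have h6 := Real.log_le_log (hj (φ + τ • h)) h4
  rw [Real.log_mul (Real.exp_pos _).ne' (mul_pos hE h5).ne', Real.log_exp,
    Real.log_mul hE.ne' h5.ne'] at h6
  have h7 := Real.log_le_sub_one_of_pos h5
  have h8 := Ar_grow hA φ h τ hτ0.le (by rw [← hs]; exact hτs)
  unfold GG
  rw [hm] at h6 h7
  nlinarith

end

end Pool.Agent.K4H59.QP
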