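import Pool.Agent.Y264.QR.All

/-!
# MP_07c750_an: the normalized logarithm of the `j`-th eigenvalue (helper59)
-/

set_option autoImplicit false

open Set Filter Topology MeasureTheory
open scoped Real ContDiff
open Pool.Agent.Y262.QE Pool.Agent.Y264.QR

noncomputable section

namespace Pool.Agent.K4H59.QP

/-- the abstract data which belong to a surface -/
structure Ab {M : Type} [MetricSpace M] [CompactSpace M] [MeasurableSpace M] [BorelSpace M]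
    (μ : Measure M) {H : Type} [NormedAddCommGroup H] [InnerProductSpace ℝ H]
    (i : H →L[ℝ] Lp ℝ 2 μ) (a : H →L[ℝ] H →L[ℝ] ℝ) (b : C(M, ℝ) → H →L[ℝ] H →L[ℝ] ℝ) : Prop where
  fm : ∀ φ, Fm a (b φ)
  pos : ∀ φ : C(M, ℝ), 0 < ∫ x, Real.exp (φ x) ∂μ
  cmp : ∀ (φ ψ : C(M, ℝ)) (v : H), b φ v v ≤ Real.exp ‖φ - ψ‖ * b ψ v v
  k : ∀ h : C(M, ℝ), ∃ k : C(M, ℝ) → H →L[ℝ] H →L[ℝ] ℝ, (∀ φ u v, k φ u v = k φ v u) ∧
        (∀ φ v, k φ v v = kap μ i h φ v ∧ |k φ v v| ≤ ‖h‖ * b φ v v) ∧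
        ∀ φ v (τ : ℝ), b φ v v + τ * k φ v v ≤ b (φ + τ • h) v v
  wl : Wl μ a b

section

variable {M : Type} [MetricSpace M] [CompactSpace M] [MeasurableSpace M] [BorelSpace M]
    {μ : Measure M} [IsFiniteMeasure μ] {H : Type} [NormedAddCommGroup H] [InnerProductSpace ℝ H]
    {i : H →L[ℝ] Lp ℝ 2 μ} {a : H →L[ℝ] H →L[ℝ] ℝ} {b : C(M, ℝ) → H →L[ℝ] H →L[ℝ] ℝ}

/-- the area -/
def Ar (μ : Measure M) (φ : C(M, ℝ)) : ℝ := ∫ x, Real.exp (φ x) ∂μ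

/-- the normalized logarithm of an eigenvalue -/
def GG (μ : Measure M) (a : H →L[ℝ] H →L[ℝ] ℝ) (b : C(M, ℝ) → H →L[ℝ] H →L[ℝ] ℝ) (j : ℕ)
    (φ : C(M, ℝ)) : ℝ :=
  Real.log (Ev a (b φ) j) + Real.log (Ar μ φ) - Real.log (4 * π * (j + 1))

omit [BorelSpace M] in
theorem int_exp [BorelSpace M] (μ : Measure M) [IsFiniteMeasure μ] (φ : C(M, ℝ)) :
    Integrable (fun x => Real.exp (φ x)) μ :=
  (Real.continuous_exp.comp φ.continuous).integrable_of_hasCompactSupport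
    (HasCompactSupport.of_compactSpace _)

theorem int_c (μ : Measure M) [IsFiniteMeasure μ] (g : M → ℝ) (hg : Continuous g) :
    Integrable g μ :=
  hg.integrable_of_hasCompactSupport (HasCompactSupport.of_compactSpace _)

theorem Ar_le (μ : Measure M) [IsFiniteMeasure μ] (φ ψ : C(M, ℝ)) :
    Ar μ φ ≤ Real.exp ‖φ - ψ‖ * Ar μ ψ := by
  unfold Ar
  rw [← integral_const_mul]
  refine integral_mono (int_exp μ φ) ((int_exp μ ψ).const_mul _) fun x => ?_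
  show Real.exp (φ x) ≤ Real.exp ‖φ - ψ‖ * Real.exp (ψ x)
  rw [← Real.exp_add]
  refine Real.exp_le_exp.2 ?_
  have h1 := (φ - ψ).norm_coe_le_norm x
  rw [ContinuousMap.sub_apply, Real.norm_eq_abs] at h1
  have := (le_abs_self _).trans h1
  linarith

/-- all eigenvalues with a large number are positive -/
theorem ev_pos (hA : Ab μ i a b) : ∀ᶠ j : ℕ in atTop, ∀ φ, 0 < Ev a (b φ) j := by
  obtain ⟨-, -, -, -, h5⟩ := tLip M μ H a b hA.fm hA.cmp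
  have h1 := hA.wl 0
  have h2 : (0 : ℝ) < 4 * π / ∫ x, Real.exp ((0 : C(M, ℝ)) x) ∂μ :=
    div_pos (by positivity) (hA.pos 0)
  filter_upwards [h1.eventually (lt_mem_nhds h2)] with j hj
  rcases h5 j with h | h
  · rw [h 0, zero_div] at hj
    exact absurd hj (lt_irrefl _)
  · exact h

theorem ev_le (hA : Ab μ i a b) (φ ψ : C(M, ℝ)) (j : ℕ) :
    Ev a (b φ) j ≤ Real.exp ‖φ - ψ‖ * Ev a (b ψ) j := by
  obtain ⟨-, -, h3, -, -⟩ := tLip M μ H a b hA.fm hA.cmp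
  exact h3 φ ψ j

/-- Weyl's law -/
theorem G_lim (hA : Ab μ i a b) (φ : C(M, ℝ)) : Tendsto (fun j => GG μ a b j φ) atTop (𝓝 0) := by
  have hp : 0 < Ar μ φ := hA.pos φ
  have h1 : Tendsto (fun j : ℕ => Ev a (b φ) j / (j + 1)) atTop (𝓝 (4 * π / Ar μ φ)) := hA.wl φ
  have h2 : (4 * π / Ar μ φ : ℝ) ≠ 0 := (div_pos (by positivity) hp).ne'
  have h3 := h1.log h2
  have h4 : Tendsto (fun j : ℕ => Real.log (Ev a (b φ) j / (j + 1)) + (Real.log (Ar μ φ) -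
      Real.log (4 * π))) atTop (𝓝 (Real.log (4 * π / Ar μ φ) + (Real.log (Ar μ φ) -
      Real.log (4 * π)))) := h3.add_const _
  have h5 : Real.log (4 * π / Ar μ φ) + (Real.log (Ar μ φ) - Real.log (4 * π)) = 0 := by
    rw [Real.log_div (by positivity) hp.ne']
    ring
  rw [h5] at h4
  refine h4.congr' ?_
  filter_upwards [ev_pos hA] with j hj
  have h6 : (0 : ℝ) < (j : ℝ) + 1 := by positivity
  rw [Real.log_div (hj φ).ne' h6.ne']
  unfold GG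
  rw [Real.log_mul (by positivity) h6.ne']
  ring

theorem G_sub (hA : Ab μ i a b) {j : ℕ} (hj : ∀ φ, 0 < Ev a (b φ) j) (φ ψ : C(M, ℝ)) :
    GG μ a b j φ - GG μ a b j ψ ≤ 2 * ‖φ - ψ‖ := by
  have h1 : Real.log (Ev a (b φ) j) ≤ ‖φ - ψ‖ + Real.log (Ev a (b ψ) j) := by
    have h2 := Real.log_le_log (hj φ) (ev_le hA φ ψ j)
    rwa [Real.log_mul (Real.exp_pos _).ne' (hj ψ).ne', Real.log_exp] at h2
  have h3 : Real.log (Ar μ φ) ≤ ‖φ - ψ‖ + Real.log (Ar μ ψ) := by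
    have h0 : 0 < Ar μ φ := hA.pos φ
    have h0' : 0 < Ar μ ψ := hA.pos ψ
    have h2 := Real.log_le_log h0 (Ar_le μ φ ψ)
    rwa [Real.log_mul (Real.exp_pos _).ne' h0'.ne', Real.log_exp] at h2
  unfold GG
  linarith

/-- the parametrization -/
def Ph {n : ℕ} (φ₀ : C(M, ℝ)) (h : Fin n → C(M, ℝ)) (c : Fin n → ℝ) : C(M, ℝ) :=
  φ₀ + ∑ l, c l • h l

omit [MeasurableSpace M] [BorelSpace M] in
theorem Ph_sub {n : ℕ} (φ₀ : C(M, ℝ)) (h : Fin n → C(M, ℝ)) (c d : Fin n → ℝ) :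
    ‖Ph φ₀ h c - Ph φ₀ h d‖ ≤ (∑ l, ‖h l‖) * ‖c - d‖ := by
  have h1 : Ph φ₀ h c - Ph φ₀ h d = ∑ l, (c l - d l) • h l := by
    unfold Ph
    rw [add_sub_add_left_eq_sub, ← Finset.sum_sub_distrib]
    exact Finset.sum_congr rfl fun l _ => (sub_smul _ _ _).symm
  rw [h1, Finset.sum_mul]
  refine (norm_sum_le _ _).trans (Finset.sum_le_sum fun l _ => ?_)
  rw [norm_smul, mul_comm]
  refine mul_le_mul_of_nonneg_left ?_ (norm_nonneg _)
  have := norm_le_pi_norm (c - d) l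
  rwa [Pi.sub_apply] at this

omit [MeasurableSpace M] [BorelSpace M] in
theorem Ph_cont {n : ℕ} (φ₀ : C(M, ℝ)) (h : Fin n → C(M, ℝ)) : Continuous (Ph φ₀ h) := by
  unfold Ph
  fun_prop

/-- uniform convergence on boxes -/
theorem G_unif (hA : Ab μ i a b) {n : ℕ} (φ₀ : C(M, ℝ)) (h : Fin n → C(M, ℝ))
    (R η : ℝ) (hη : 0 < η) :
    ∀ᶠ j : ℕ in atTop, ∀ c : Fin n → ℝ, ‖c‖ ≤ R → |GG μ a b j (Ph φ₀ h c)| ≤ η := by
  set L : ℝ := 2 * ∑ l, ‖h l‖ with hL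
  have hL0 : 0 ≤ L := by
    rw [hL]
    have : 0 ≤ ∑ l, ‖h l‖ := Finset.sum_nonneg fun _ _ => norm_nonneg _
    linarith
  set r : ℝ := η / (2 * (L + 1)) with hr
  have hr0 : 0 < r := by positivity
  have hK : IsCompact (Metric.closedBall (0 : Fin n → ℝ) R) := isCompact_closedBall _ _
  obtain ⟨t, -, ht, hcov⟩ := hK.finite_cover_balls hr0
  have h1 : ∀ c ∈ t, ∀ᶠ j : ℕ in atTop, |GG μ a b j (Ph φ₀ h c)| ≤ η / 2 := by
    intro c _
    have h2 := (G_lim hA (Ph φ₀ h c)).abs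
    rw [abs_zero] at h2
    exact h2.eventually (ge_mem_nhds (by positivity))
  filter_upwards [(eventually_all_finite ht).2 h1, ev_pos hA] with j hj hpos c hc
  have hmem : c ∈ Metric.closedBall (0 : Fin n → ℝ) R := by
    rwa [mem_closedBall_zero_iff]
  obtain ⟨d, hd⟩ := mem_iUnion.1 (hcov hmem)
  obtain ⟨hdt, hd⟩ := mem_iUnion.1 hd
  have h3 : ‖c - d‖ < r := by
    rw [← dist_eq_norm]
    exact hd
  have h4 : ‖Ph φ₀ h c - Ph φ₀ h d‖ ≤ (∑ l, ‖h l‖) * r :=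
    (Ph_sub φ₀ h c d).trans (mul_le_mul_of_nonneg_left h3.le
      (Finset.sum_nonneg fun _ _ => norm_nonneg _))
  have h5 : 2 * ((∑ l, ‖h l‖) * r) ≤ η / 2 := by
    have h6 : 2 * ((∑ l, ‖h l‖) * r) = L * r := by rw [hL]; ring
    rw [h6, hr, ← mul_div_assoc, div_le_div_iff₀ (by positivity) (by positivity)]
    nlinarith
  have h7 := G_sub hA hpos (Ph φ₀ h c) (Ph φ₀ h d)
  have h8 := G_sub hA hpos (Ph φ₀ h d) (Ph φ₀ h c)
  rw [norm_sub_rev] at h8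
  have h9 := abs_le.1 (hj d hdt)
  rw [abs_le]
  constructor <;> linarith

end

end Pool.Agent.K4H59.QP
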