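import Pool.Agent.K4H59.QP.Crit

/-!
# MP_07c750_an: the sequence of perturbations (helper59)
-/

set_option autoImplicit false

open Set Filter Topology MeasureTheory
open scoped Real ContDiff
open Pool.Agent.Y262.QE Pool.Agent.Y264.QR

noncomputable section

namespace Pool.Agent.K4H59.QP

section

variable {M : Type} [MetricSpace M] [CompactSpace M] [MeasurableSpace M] [BorelSpace M]
    {μ : Measure M} [IsFiniteMeasure μ] {H : Type} [NormedAddCommGroup H] [InnerProductSpace ℝ H]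
    {i : H →L[ℝ] Lp ℝ 2 μ} {a : H →L[ℝ] H →L[ℝ] ℝ} {b : C(M, ℝ) → H →L[ℝ] H →L[ℝ] ℝ}

theorem kap_neg (f φ : C(M, ℝ)) (v : H) : kap μ i (-f) φ v = - kap μ i f φ v := by
  have h1 := kap_csmul (μ := μ) (i := i) (-1) f φ v
  rw [neg_one_smul, neg_one_mul] at h1
  exact h1

theorem avg_neg (f φ : C(M, ℝ)) : avg μ (-f) φ = - avg μ f φ := by
  have h1 := avg_csmul (μ := μ) (-1) f φ
  rw [neg_one_smul, neg_one_mul] at h1
  exact h1

theorem kap_sub (f g φ : C(M, ℝ)) (v : H) :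
    kap μ i (f - g) φ v = kap μ i f φ v - kap μ i g φ v := by
  rw [sub_eq_add_neg, kap_add, kap_neg, sub_eq_add_neg]

theorem avg_sub (f g φ : C(M, ℝ)) : avg μ (f - g) φ = avg μ f φ - avg μ g φ := by
  rw [sub_eq_add_neg, avg_add, avg_neg, sub_eq_add_neg]

/-- the step with `n` functions -/
theorem step (hA : Ab μ i a b) (hB : IsB μ i b) (heg : ∀ φ, ∃ (e : ℕ → H) (E : ℕ → ℝ),
      Eg a (b φ) e E) {n : ℕ} (φ₀ : C(M, ℝ)) (h : Fin n → C(M, ℝ)) (ρ ε : ℝ) (hρ : 0 < ρ)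
    (hε : 0 < ε) :
    ∀ᶠ j : ℕ in atTop, ∃ c : Fin n → ℝ, ‖c‖ ≤ ρ ∧ ∃ (p : ℕ → ℝ) (v : ℕ → H),
      (∀ r, 0 ≤ p r) ∧ ∑ r ∈ Finset.range (n + 1), p r = 1 ∧ (∀ r, n < r → p r = 0) ∧
      (∀ r, Un a b j (Ph φ₀ h c) (v r)) ∧
      ∀ l, |∑ r ∈ Finset.range (n + 1), p r * kap μ i (h l) (Ph φ₀ h c) (v r) -
        avg μ (h l) (Ph φ₀ h c)| ≤ ε := by
  filter_upwards [crit hA hB heg φ₀ h ρ (ε / 2) hρ (by positivity)] with j hj
  obtain ⟨c, hc, hcr⟩ := hj
  refine ⟨c, hc, ?_⟩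
  set φ := Ph φ₀ h c with hφ
  set S : Set (Fin n → ℝ) := {x | ∃ v, Un a b j φ v ∧ ∀ l, x l = kap μ i (h l) φ v -
    avg μ (h l) φ} with hS
  have hdir : ∀ (d : Fin n → ℝ) (ζ : ℝ), 0 < ζ → ∃ x ∈ S, ∑ l, d l * x l ≤
      ε / 2 * ∑ l, |d l| + ζ := by
    intro d ζ hζ
    obtain ⟨v, hv, hv2⟩ := hcr d ζ hζ
    refine ⟨fun l => kap μ i (h l) φ v - avg μ (h l) φ, ⟨v, hv, fun l => rfl⟩, ?_⟩
    rw [kap_sum, avg_sum] at hv2
    have h1 : ∑ l, d l * (kap μ i (h l) φ v - avg μ (h l) φ) =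
        ∑ l, d l * kap μ i (h l) φ v - ∑ l, d l * avg μ (h l) φ := by
      rw [← Finset.sum_sub_distrib]
      exact Finset.sum_congr rfl fun l _ => mul_sub _ _ _
    rw [h1]
    linarith
  have hne : S.Nonempty := by
    obtain ⟨x, hx, -⟩ := hdir 0 1 one_pos
    exact ⟨x, hx⟩
  obtain ⟨x, hx, hx2⟩ := mix S hne (ε / 2) (by positivity) hdir
  obtain ⟨p, z, hp0, hp1, hp2, hz, hzx⟩ := cara S x hx
  choose v hv1 hv2 using hz
  refine ⟨p, v, hp0, hp1, hp2, hv1, fun l => ?_⟩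
  have h1 : ∑ r ∈ Finset.range (n + 1), p r * kap μ i (h l) φ (v r) - avg μ (h l) φ = x l := by
    rw [← hzx l]
    have h2 : avg μ (h l) φ = ∑ r ∈ Finset.range (n + 1), p r * avg μ (h l) φ := by
      rw [← Finset.sum_mul, hp1, one_mul]
    rw [h2, ← Finset.sum_sub_distrib]
    refine Finset.sum_congr rfl fun r _ => ?_
    rw [hv2 r l, mul_sub]
  rw [h1]
  have := (hx2 l).le
  linarith

/-- the abstract theorem -/
theorem seq (hA : Ab μ i a b) (hB : IsB μ i b) (heg : ∀ φ, ∃ (e : ℕ → H) (E : ℕ → ℝ),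
      Eg a (b φ) e E) {V : Type} [AddCommGroup V] [Module ℝ V] [TopologicalSpace V]
    [IsTopologicalAddGroup V] [ContinuousSMul ℝ V] [FirstCountableTopology V]
    (T : V →L[ℝ] C(M, ℝ)) (hT : DenseRange T) (R : ℕ → ℕ) (hR : Tendsto R atTop atTop) :
    ∃ (ψ : ℕ → V) (p : ℕ → ℕ → ℝ) (v : ℕ → ℕ → H), Tendsto ψ atTop (𝓝 0) ∧
      (∀ j r, 0 ≤ p j r) ∧ (∀ j, ∑ r ∈ Finset.range (R j + 1), p j r = 1) ∧
      (∀ j r, Un a b j (T (ψ j)) (v j r)) ∧
      ∀ f : C(M, ℝ), Tendsto (fun j => ∑ r ∈ Finset.range (R j + 1),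
        p j r * kap μ i f (T (ψ j)) (v j r)) atTop (𝓝 (avg μ f 0)) := by
  classical
  obtain ⟨U, hU⟩ := (𝓝 (0 : V)).exists_antitone_basis
  -- a countable dense set of test functions
  obtain ⟨t, htr, htc, htd⟩ := Dense.exists_countable_dense_subset hT
  have htne : t.Nonempty := htd.nonempty
  obtain ⟨g, hg⟩ := htc.exists_eq_range htne
  have hgx : ∀ l, ∃ x : V, T x = g l := fun l => htr (by rw [hg]; exact ⟨l, rfl⟩)
  choose x hx using hgx
  have hgd : DenseRange g := by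
    rw [DenseRange, ← hg]
    exact htd
  -- the predicate
  set Q : ℕ → ℕ → Prop := fun N j => ∃ ψ ∈ U N, ∃ (p : ℕ → ℝ) (v : ℕ → H),
      (∀ r, 0 ≤ p r) ∧ ∑ r ∈ Finset.range (N + 1), p r = 1 ∧ (∀ r, N < r → p r = 0) ∧
      (∀ r, Un a b j (T ψ) (v r)) ∧
      ∀ l, l < N → |∑ r ∈ Finset.range (N + 1), p r * kap μ i (g l) (T ψ) (v r) -
        avg μ (g l) (T ψ)| ≤ 1 / ((N : ℝ) + 1) with hQ
  have hQ0 : ∀ j, Q 0 j := by
    intro j
    refine ⟨0, mem_of_mem_nhds (hU.mem 0), fun r => if r = 0 then 1 else 0, ?_⟩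
    obtain ⟨e, E, he⟩ := heg (T 0)
    have hmm : ∀ l, Ev a (b (T 0)) l = E l :=
      Pool.Agent.Y592.QE.mm H a (b (T 0)) (hA.fm _) e E he
    refine ⟨fun _ => e j, fun r => ?_, ?_, fun r hr => ?_, fun r => ⟨?_, fun w => ?_⟩,
      fun l hl => absurd hl (Nat.not_lt_zero _)⟩
    · show (0 : ℝ) ≤ if r = 0 then 1 else 0
      split_ifs <;> norm_num
    · simp
    · have : r ≠ 0 := by omega
      simp [this]
    · rw [he.orth]
      simp
    · rw [he.eig, hmm]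
  have hQN : ∀ N, ∀ᶠ j in atTop, Q N j := by
    intro N
    have hc : Continuous fun c : Fin N → ℝ => ∑ l, c l • x l := by fun_prop
    have h1 : ∀ᶠ c : Fin N → ℝ in 𝓝 0, ∑ l, c l • x l ∈ U N := by
      have h2 : Tendsto (fun c : Fin N → ℝ => ∑ l, c l • x l) (𝓝 0) (𝓝 0) := by
        have h3 := hc.tendsto 0
        simpa using h3
      exact h2 (hU.mem N)
    obtain ⟨ρ, hρ, hρ2⟩ := Metric.nhds_basis_closedBall.mem_iff.1 h1
    have hpos : (0 : ℝ) < 1 / ((N : ℝ) + 1) := by positivity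
    filter_upwards [step hA hB heg (0 : C(M, ℝ)) (fun l : Fin N => g l) ρ _ hρ hpos] with j hj
    obtain ⟨c, hc1, p, v, hp0, hp1, hp2, hv, hl⟩ := hj
    have hP : Ph (0 : C(M, ℝ)) (fun l : Fin N => g l) c = T (∑ l, c l • x l) := by
      unfold Ph
      rw [zero_add, map_sum]
      refine Finset.sum_congr rfl fun l _ => ?_
      rw [map_smul, hx]
    rw [hP] at hv hl
    refine ⟨∑ l, c l • x l, hρ2 ?_, p, v, hp0, hp1, hp2, hv, fun l hlN => hl ⟨l, hlN⟩⟩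
    rwa [mem_closedBall_zero_iff]
  set Nj : ℕ → ℕ := fun j => Nat.findGreatest (fun N => Q N j) (min j (R j)) with hNj
  have hQj : ∀ j, Q (Nj j) j := fun j =>
    Nat.findGreatest_spec (P := fun N => Q N j) (Nat.zero_le _) (hQ0 j)
  have hNR : ∀ j, Nj j ≤ R j := fun j => (Nat.findGreatest_le _).trans (min_le_right _ _)
  have hNt : Tendsto Nj atTop atTop := by
    rw [tendsto_atTop]
    intro K
    filter_upwards [hQN K, hR.eventually_ge_atTop K, eventually_ge_atTop K] with j h1 h2 h3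
    exact Nat.le_findGreatest (le_min h3 h2) h1
  choose ψ hψ p v hp0 hp1 hp2 hv hl using hQj
  have hsum : ∀ (j : ℕ) (F : ℕ → ℝ), ∑ r ∈ Finset.range (R j + 1), p j r * F r =
      ∑ r ∈ Finset.range (Nj j + 1), p j r * F r := by
    intro j F
    symm
    refine Finset.sum_subset (Finset.range_subset_range.2 (by have := hNR j; omega)) ?_
    intro r _ hr
    rw [Finset.mem_range, not_lt] at hr
    rw [hp2 j r (by omega), zero_mul]
  have hψ0 : Tendsto ψ atTop (𝓝 0) := by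
    rw [hU.tendsto_right_iff]
    intro k _
    filter_upwards [hNt.eventually_ge_atTop k] with j hj
    exact hU.antitone hj (hψ j)
  have hp1' : ∀ j, ∑ r ∈ Finset.range (R j + 1), p j r = 1 := by
    intro j
    have h1 := hsum j fun _ => 1
    simp only [mul_one] at h1
    rw [h1, hp1]
  refine ⟨ψ, p, v, hψ0, hp0, hp1', hv, fun f => ?_⟩
  rw [Metric.tendsto_atTop']
  intro ε hε
  obtain ⟨l, hlf⟩ := hgd.exists_dist_lt f (by positivity : (0 : ℝ) < ε / 4)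
  have hlf' : ‖f - g l‖ < ε / 4 := by rwa [← dist_eq_norm]
  have h1 : Tendsto (fun j => avg μ (g l) (T (ψ j))) atTop (𝓝 (avg μ (g l) 0)) := by
    have h2 : Tendsto (fun j => T (ψ j)) atTop (𝓝 (T 0)) := (T.continuous.tendsto 0).comp hψ0
    rw [map_zero] at h2
    exact ((avg_cont (g l)).tendsto 0).comp h2
  have h3 : Tendsto (fun j => 1 / ((Nj j : ℝ) + 1)) atTop (𝓝 0) :=
    tendsto_one_div_add_atTop_nhds_zero_nat.comp hNt
  have h4 := h1.eventually (Metric.ball_mem_nhds _ (by positivity : (0 : ℝ) < ε / 8))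
  have h5 := h3.eventually (gt_mem_nhds (by positivity : (0 : ℝ) < ε / 8))
  obtain ⟨J, hJ⟩ := ((h4.and h5).and (hNt.eventually_gt_atTop l)).exists_forall_of_atTop
  refine ⟨J, fun j hjJ => ?_⟩
  obtain ⟨⟨hj4, hj5⟩, hj6⟩ := hJ j hjJ.le
  rw [Real.dist_eq] at hj4
  have h6 := hl j l hj6
  rw [← hsum j fun r => kap μ i (g l) (T (ψ j)) (v j r)] at h6
  have h7 : |∑ r ∈ Finset.range (R j + 1), p j r * kap μ i f (T (ψ j)) (v j r) -
      ∑ r ∈ Finset.range (R j + 1), p j r * kap μ i (g l) (T (ψ j)) (v j r)| ≤ ‖f - g l‖ := by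
    rw [← Finset.sum_sub_distrib]
    refine (Finset.abs_sum_le_sum_abs _ _).trans ?_
    calc ∑ r ∈ Finset.range (R j + 1), |p j r * kap μ i f (T (ψ j)) (v j r) -
          p j r * kap μ i (g l) (T (ψ j)) (v j r)|
        ≤ ∑ r ∈ Finset.range (R j + 1), p j r * ‖f - g l‖ := by
          refine Finset.sum_le_sum fun r _ => ?_
          rw [← mul_sub, abs_mul, abs_of_nonneg (hp0 j r), ← kap_sub]
          refine mul_le_mul_of_nonneg_left ?_ (hp0 j r)
          have := kap_bd hA (f - g l) (T (ψ j)) (v j r)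
          rwa [(hv j r).1, mul_one] at this
      _ = ‖f - g l‖ := by rw [← Finset.sum_mul, hp1', one_mul]
  have h8 : |avg μ f 0 - avg μ (g l) 0| ≤ ‖f - g l‖ := by
    rw [← avg_sub]
    exact avg_bd _ _
  rw [Real.dist_eq]
  rw [abs_le] at h6 h7 h8
  rw [abs_lt] at hj4 ⊢
  constructor <;> linarith [h6.1, h6.2, h7.1, h7.2, h8.1, h8.2, hj4.1, hj4.2]

end

end Pool.Agent.K4H59.QP
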