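import Pool.Agent.K4H59.QP.Seq

/-!
# MP_07c750_an: one observable: the numerical range is convex (helper59)
-/

set_option autoImplicit false

open Set Filter Topology MeasureTheory
open Pool.Agent.Y262.QE Pool.Agent.Y264.QR

noncomputable section

namespace Pool.Agent.K4H59.QP

section

variable {M : Type} [MetricSpace M] [CompactSpace M] [MeasurableSpace M] [BorelSpace M]
    {μ : Measure M} [IsFiniteMeasure μ] {H : Type} [NormedAddCommGroup H] [InnerProductSpace ℝ H]
    {i : H →L[ℝ] Lp ℝ 2 μ} {a : H →L[ℝ] H →L[ℝ] ℝ} {b : C(M, ℝ) → H →L[ℝ] H →L[ℝ] ℝ}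

theorem bil_exp (B : H →L[ℝ] H →L[ℝ] ℝ) (hs : ∀ u v, B u v = B v u) (v w : H) (s t : ℝ) :
    B (s • v + t • w) (s • v + t • w) = s ^ 2 * B v v + 2 * (s * t) * B v w + t ^ 2 * B w w := by
  have h1 : ∀ z, B (s • v + t • w) z = s * B v z + t * B w z := by
    intro z
    rw [map_add, map_smul, map_smul]
    rfl
  rw [h1, map_add, map_add, map_smul, map_smul, map_smul, map_smul, hs w v]
  simp only [smul_eq_mul]
  ring

theorem bil_scale (B : H →L[ℝ] H →L[ℝ] ℝ) (v : H) (s : ℝ) :
    B (s • v) (s • v) = s ^ 2 * B v v := by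
  have h1 : ∀ z, B (s • v) z = s * B v z := by
    intro z
    rw [map_smul]
    rfl
  rw [h1, map_smul, smul_eq_mul]
  ring

/-- the values of one observable on the unit eigenvectors form an interval -/
theorem ivt (hA : Ab μ i a b) (f φ : C(M, ℝ)) (j : ℕ) :
    Convex ℝ {s : ℝ | ∃ v, Un a b j φ v ∧ kap μ i f φ v = s} := by
  obtain ⟨k, hk1, hk2, -⟩ := hA.k f
  have hk : ∀ v, k φ v v = kap μ i f φ v := fun v => (hk2 φ v).1
  -- vectors with a nonnegative product
  have key : ∀ v w : H, Un a b j φ v → Un a b j φ w → 0 ≤ b φ v w →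
      uIcc (kap μ i f φ v) (kap μ i f φ w) ⊆ {s : ℝ | ∃ v, Un a b j φ v ∧ kap μ i f φ v = s} := by
    intro v w hv hw hvw
    set x : ℝ → H := fun t => (1 - t) • v + t • w with hx
    have hb : ∀ t, b φ (x t) (x t) = (1 - t) ^ 2 + 2 * ((1 - t) * t) * b φ v w + t ^ 2 := by
      intro t
      rw [hx]
      simp only
      rw [bil_exp (b φ) (hA.fm φ).sb, hv.1, hw.1]
      ring
    have hb0 : ∀ t ∈ uIcc (0 : ℝ) 1, 0 < b φ (x t) (x t) := by
      intro t ht
      rw [uIcc_of_le zero_le_one] at ht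
      rw [hb]
      have h1 : 0 ≤ 2 * ((1 - t) * t) * b φ v w := by
        have := mul_nonneg (sub_nonneg.2 ht.2) ht.1
        positivity
      nlinarith [sq_nonneg (2 * t - 1)]
    set F : ℝ → ℝ := fun t => k φ (x t) (x t) / b φ (x t) (x t) with hF
    have hFc : ContinuousOn F (uIcc 0 1) := by
      rw [hF]
      have hxc : Continuous x := by rw [hx]; fun_prop
      refine ContinuousOn.div (Continuous.continuousOn ?_) (Continuous.continuousOn ?_)
        fun t ht => (hb0 t ht).ne'
      · fun_prop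
      · fun_prop
    have h1 := intermediate_value_uIcc hFc
    have h2 : F 0 = kap μ i f φ v := by
      have e : x 0 = v := by simp [hx]
      rw [hF]
      simp only
      rw [e, hv.1, div_one, hk]
    have h3 : F 1 = kap μ i f φ w := by
      have e : x 1 = w := by simp [hx]
      rw [hF]
      simp only
      rw [e, hw.1, div_one, hk]
    rw [h2, h3] at h1
    intro s hs
    obtain ⟨t, ht, hts⟩ := h1 hs
    have hp := hb0 t ht
    refine ⟨(Real.sqrt (b φ (x t) (x t)))⁻¹ • x t, ⟨?_, fun z => ?_⟩, ?_⟩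
    · rw [bil_scale, inv_pow, Real.sq_sqrt hp.le, inv_mul_cancel₀ hp.ne']
    · have e1 : a (x t) z = Ev a (b φ) j * b φ (x t) z := by
        have e2 : ∀ B : H →L[ℝ] H →L[ℝ] ℝ, B (x t) z = (1 - t) * B v z + t * B w z := by
          intro B
          rw [hx]
          simp only
          rw [map_add, map_smul, map_smul]
          rfl
        rw [e2, e2, hv.2, hw.2]
        ring
      have e3 : ∀ B : H →L[ℝ] H →L[ℝ] ℝ, B ((Real.sqrt (b φ (x t) (x t)))⁻¹ • x t) z =
          (Real.sqrt (b φ (x t) (x t)))⁻¹ * B (x t) z := by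
        intro B
        rw [map_smul]
        rfl
      rw [e3, e3, e1]
      ring
    · rw [← hk, bil_scale, inv_pow, Real.sq_sqrt hp.le, inv_mul_eq_div]
      exact hts
  refine OrdConnected.convex (ordConnected_iff_uIcc_subset.2 ?_)
  rintro _ ⟨v, hv, rfl⟩ _ ⟨w, hw, rfl⟩
  rcases le_total 0 (b φ v w) with h0 | h0
  · exact key v w hv hw h0
  · have e3 : ∀ (B : H →L[ℝ] H →L[ℝ] ℝ) (z : H), B (-w) z = - B w z := by
      intro B z
      rw [map_neg]
      rfl
    have hw' : Un a b j φ (-w) := by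
      refine ⟨?_, fun z => ?_⟩
      · rw [e3, map_neg, neg_neg]
        exact hw.1
      · rw [e3, e3, hw.2]
        ring
    have h1 := key v (-w) hv hw' (by rw [map_neg]; linarith)
    have h2 : kap μ i f φ (-w) = kap μ i f φ w := by
      have h3 := kap_smul (i := i) f φ w (-1)
      rw [neg_one_smul] at h3
      rw [h3]
      ring
    rwa [h2] at h1

/-- a single eigenvector with the same value as a mixture -/
theorem single (hA : Ab μ i a b) (f φ : C(M, ℝ)) (j n : ℕ) (p : ℕ → ℝ) (v : ℕ → H)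
    (hp0 : ∀ r, 0 ≤ p r) (hp1 : ∑ r ∈ Finset.range n, p r = 1) (hv : ∀ r, Un a b j φ (v r)) :
    ∃ z, Un a b j φ z ∧ kap μ i f φ z = ∑ r ∈ Finset.range n, p r * kap μ i f φ (v r) := by
  have h1 := (ivt hA f φ j).sum_mem (t := Finset.range n) (w := p)
    (z := fun r => kap μ i f φ (v r)) (fun r _ => hp0 r) hp1 (fun r _ => ⟨v r, hv r, rfl⟩)
  obtain ⟨z, hz, hz2⟩ := h1
  exact ⟨z, hz, hz2⟩

end

end Pool.Agent.K4H59.QP
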