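import Pool.Agent.K4H59.QP.Sing

/-!
# MP_07c750_an: every level by perturbation, on surfaces (helper59)
-/

set_option autoImplicit false

open Set Filter Topology MeasureTheory
open Pool.Agent.Y262.QE Pool.Agent.Y264.QR

noncomputable section

namespace Pool.Agent.K4H59.QP

theorem avg_zero {M : Type} [MetricSpace M] [CompactSpace M] [MeasurableSpace M] [BorelSpace M]
    (μ : Measure M) (f : C(M, ℝ)) : avg μ f 0 = (∫ x, f x ∂μ) / μ.real univ := by
  unfold avg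
  simp

theorem top (M : Type) [MetricSpace M] [CompactSpace M] [MeasurableSpace M] [BorelSpace M]
    [Nonempty M] (μ : Measure M) (D : Data M) (hD : D.IsSurf μ)
    (V : Type) [AddCommGroup V] [Module ℝ V] [TopologicalSpace V] [IsTopologicalAddGroup V]
    [ContinuousSMul ℝ V] [FirstCountableTopology V] (T : V →L[ℝ] C(M, ℝ)) (hT : DenseRange T)
    (R : ℕ → ℕ) (hR : Tendsto R atTop atTop) :
    ∃ (ψ : ℕ → V) (w : ℕ → ℕ → M → ℝ) (E : ℕ → ℕ → ℝ) (p : ℕ → ℕ → ℝ) (u : ℕ → ℕ → M → ℝ),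
      Tendsto ψ atTop (𝓝 0) ∧
      (∀ j, EigBasis (D.conf fun x => Real.exp (T (ψ j) x)) (wm μ fun x => Real.exp (T (ψ j) x))
        (w j) (E j)) ∧
      (∀ j r, (D.conf fun x => Real.exp (T (ψ j) x)).IsEig
          (wm μ fun x => Real.exp (T (ψ j) x)) (E j j) (u j r) ∧
        ∫ x, (u j r x) ^ 2 ∂(wm μ fun x => Real.exp (T (ψ j) x)) = 1) ∧
      (∀ j r, 0 ≤ p j r) ∧ (∀ j, ∑ r ∈ Finset.range (R j + 1), p j r = 1) ∧
      ∀ f : C(M, ℝ), Tendsto (fun j => ∑ r ∈ Finset.range (R j + 1),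
        p j r * ∫ x, f x * (u j r x) ^ 2 ∂(wm μ fun x => Real.exp (T (ψ j) x))) atTop
        (𝓝 ((∫ x, f x ∂μ) / μ.real univ)) ∧
      ∃ z : ℕ → M → ℝ, (∀ j, (D.conf fun x => Real.exp (T (ψ j) x)).IsEig
          (wm μ fun x => Real.exp (T (ψ j) x)) (E j j) (z j) ∧
        ∫ x, (z j x) ^ 2 ∂(wm μ fun x => Real.exp (T (ψ j) x)) = 1) ∧
        Tendsto (fun j => ∫ x, f x * (z j x) ^ 2 ∂(wm μ fun x => Real.exp (T (ψ j) x))) atTop
        (𝓝 ((∫ x, f x ∂μ) / μ.real univ)) := by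
  obtain ⟨hfin, -⟩ := tFin M μ D hD
  haveI := hfin
  obtain ⟨i, a, hSf, hi, ha⟩ := tPackF M μ D hD inferInstance
  obtain ⟨b, hB, hF, hpos, hcmp, hk⟩ := tFm M μ (HF D μ) i a hSf
  have hW := tWl M μ D hD inferInstance i a b hSf hi ha hB
  have hA : Ab μ i a b := ⟨hF, hpos, hcmp, hk, hW⟩
  choose w E hwE using fun φ : C(M, ℝ) => tEx M μ D hD inferInstance φ
  have hbr := fun φ : C(M, ℝ) => tBr M μ D hD i a b hSf hi ha hB hF φ (w φ) (E φ) (hwE φ)
  choose e _ he2 using hbr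
  have heg : ∀ φ, ∃ (e : ℕ → HF D μ) (E : ℕ → ℝ), Eg a (b φ) e E := fun φ => ⟨e φ, E φ, he2 φ⟩
  have hmm : ∀ φ j, Ev a (b φ) j = E φ j := fun φ j =>
    Pool.Agent.Y592.QE.mm (HF D μ) a (b φ) (hF φ) (e φ) (E φ) (he2 φ) j
  obtain ⟨ψ, p, v, hψ, hp0, hp1, hv, hlim⟩ := seq hA hB heg T hT R hR
  -- eigenvectors are eigenfunctions
  have hun : ∀ (φ : C(M, ℝ)) (j : ℕ) (v : HF D μ), Un a b j φ v →
      (D.conf fun x => Real.exp (φ x)).IsEig (wm μ fun x => Real.exp (φ x)) (E φ j)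
        (v.1.fst : M → ℝ) ∧
      ∫ x, ((v.1.fst : M → ℝ) x) ^ 2 ∂(wm μ fun x => Real.exp (φ x)) = 1 := by
    intro φ j v hv
    refine ⟨?_, ?_⟩
    · refine eigF tGr tFin tConf tDenF M μ D hD (fun x => Real.exp (φ x))
        (Real.continuous_exp.comp φ.continuous) (fun x => Real.exp_pos _) (E φ j) v.1 v.2 ?_
      intro v' hv'
      have h1 := hv.2 ⟨v', hv'⟩
      rw [ha, hmm, hB φ, hi, hi] at h1
      exact h1
    · have hm : Measurable fun x => Real.exp (φ x) :=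
        (Real.continuous_exp.comp φ.continuous).measurable
      rw [integral_wm μ _ hm (fun x => (Real.exp_pos _).le)]
      have h1 := hv.1
      rw [hB φ, hi] at h1
      rw [← h1]
      refine integral_congr_ae (Eventually.of_forall fun x => ?_)
      simp only
      ring
  have hkap : ∀ (f φ : C(M, ℝ)) (v : HF D μ), kap μ i f φ v =
      ∫ x, f x * ((v.1.fst : M → ℝ) x) ^ 2 ∂(wm μ fun x => Real.exp (φ x)) := by
    intro f φ v
    refine kap_eq μ i f φ v _ ?_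
    rw [hi]
  refine ⟨ψ, fun j => w (T (ψ j)), fun j => E (T (ψ j)), p, fun j r => ((v j r).1.fst : M → ℝ),
    hψ, fun j => hwE _, fun j r => hun _ j _ (hv j r), hp0, hp1, fun f => ⟨?_, ?_⟩⟩
  · have h1 := hlim f
    rw [avg_zero] at h1
    refine h1.congr fun j => ?_
    refine Finset.sum_congr rfl fun r _ => ?_
    rw [hkap]
  · choose z hz1 hz2 using fun j => single hA f (T (ψ j)) j (R j + 1) (p j) (v j) (hp0 j)
      (hp1 j) (hv j)
    refine ⟨fun j => ((z j).1.fst : M → ℝ), fun j => hun _ j _ (hz1 j), ?_⟩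
    have h1 := hlim f
    rw [avg_zero] at h1
    refine h1.congr fun j => ?_
    rw [← hz2 j, hkap]

end Pool.Agent.K4H59.QP
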